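import Mathlib

set_option autoImplicit false

/-!
# Linear forests: acyclic graphs of maximum degree two

Degrees, the closure property of paths between leaves, the existence of leaves, and the passage
from a linear forest with exactly two vertices of odd degree to a single path.
-/

namespace Pool.Agent.U913.OC

open SimpleGraph Finset
open scoped Classical

variable {V : Type} [Fintype V]

/-- The degree of a vertex. -/
noncomputable def dg (G : SimpleGraph V) (v : V) : ℕ := (univ.filter (fun w => G.Adj v w)).card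

lemma dg_eq_degree (G : SimpleGraph V) (v : V) [Fintype (G.neighborSet v)] :
    dg G v = G.degree v := by
  unfold dg
  rw [← SimpleGraph.card_neighborFinset_eq_degree]
  congr 1
  ext w
  simp

lemma ncard_nbr (G : SimpleGraph V) (v : V) : (G.neighborSet v).ncard = dg G v := by
  unfold dg
  rw [← Set.ncard_coe_finset]
  congr 1
  ext w
  simp

lemma dg_sup {A B : SimpleGraph V} {v : V} (h : ∀ w, A.Adj v w → ¬ B.Adj v w) :
    dg (A ⊔ B) v = dg A v + dg B v := by
  unfold dg
  rw [← Finset.card_union_of_disjoint]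
  · congr 1
    ext w
    simp
  · rw [Finset.disjoint_left]
    intro w hw hw'
    simp only [mem_filter, mem_univ, true_and] at hw hw'
    exact h w hw hw'

lemma dg_sdiff {F S : SimpleGraph V} (h : S ≤ F) (v : V) : dg (F \ S) v + dg S v = dg F v := by
  have h1 : F = (F \ S) ⊔ S := (sdiff_sup_cancel h).symm
  conv_rhs => rw [h1]
  rw [dg_sup]
  intro w hw
  exact hw.2

lemma dg_edge {x y : V} (h : x ≠ y) (v : V) :
    dg (edge x y) v = if v = x ∨ v = y then 1 else 0 := by
  unfold dg
  split_ifs with h1
  · rw [Finset.card_eq_one]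
    rcases h1 with rfl | rfl
    · refine ⟨y, ?_⟩
      ext w
      simp only [mem_filter, mem_univ, true_and, edge_adj, mem_singleton]
      grind
    · refine ⟨x, ?_⟩
      ext w
      simp only [mem_filter, mem_univ, true_and, edge_adj, mem_singleton]
      grind
  · rw [Finset.card_eq_zero]
    ext w
    simp only [mem_filter, mem_univ, true_and, edge_adj, Finset.notMem_empty, iff_false]
    grind

lemma dg_sup_edge {A : SimpleGraph V} {x y : V} (h : x ≠ y) (hA : ¬ A.Adj x y) (v : V) :
    dg (A ⊔ edge x y) v = dg A v + if v = x ∨ v = y then 1 else 0 := by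
  rw [dg_sup, dg_edge h]
  intro w hw hw'
  rw [edge_adj] at hw'
  rcases hw'.1 with ⟨rfl, rfl⟩ | ⟨rfl, rfl⟩
  · exact hA hw
  · exact hA hw.symm

lemma dg_pos {G : SimpleGraph V} {v w : V} (h : G.Adj v w) : 0 < dg G v := by
  unfold dg
  exact Finset.card_pos.2 ⟨w, by simpa using h⟩

lemma exists_of_dg_pos {G : SimpleGraph V} {v : V} (h : 0 < dg G v) : ∃ w, G.Adj v w := by
  unfold dg at h
  obtain ⟨w, hw⟩ := Finset.card_pos.1 h
  exact ⟨w, by simpa using hw⟩

lemma dg_zero {G : SimpleGraph V} {v : V} (h : dg G v = 0) (w : V) : ¬ G.Adj v w :=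
  fun h' => by have := dg_pos h'; omega

lemma dg_one {G : SimpleGraph V} {v a b : V} (h : dg G v ≤ 1) (ha : G.Adj v a) (hb : G.Adj v b) :
    a = b := by
  unfold dg at h
  rw [Finset.card_le_one] at h
  exact h a (by simpa using ha) b (by simpa using hb)

lemma dg_le_one_of {G : SimpleGraph V} {v : V} (h : ∀ a b, G.Adj v a → G.Adj v b → a = b) :
    dg G v ≤ 1 := by
  unfold dg
  rw [Finset.card_le_one]
  intro a ha b hb
  exact h a b (by simpa using ha) (by simpa using hb)

lemma dg_two {G : SimpleGraph V} {v : V} (h : dg G v = 2) :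
    ∃ a b, a ≠ b ∧ ∀ w, G.Adj v w ↔ w = a ∨ w = b := by
  unfold dg at h
  obtain ⟨a, b, hab, h1⟩ := Finset.card_eq_two.1 h
  refine ⟨a, b, hab, fun w => ?_⟩
  have : w ∈ univ.filter (fun w => G.Adj v w) ↔ w ∈ ({a, b} : Finset V) := by rw [h1]
  simpa using this

lemma dg_mono {A B : SimpleGraph V} (h : A ≤ B) (v : V) : dg A v ≤ dg B v := by
  unfold dg
  exact Finset.card_le_card (fun w hw => by
    simp only [mem_filter, mem_univ, true_and] at hw ⊢
    exact h hw)

/-- A path between two vertices of degree at most one, in a graph of maximum degree two, uses all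
edges at its vertices. -/
lemma path_closed {H : SimpleGraph V} (hd : ∀ v, dg H v ≤ 2) {x y : V} (p : H.Walk x y)
    (hp : p.IsPath) (hn : ¬ p.Nil) (hx : dg H x ≤ 1) (hy : dg H y ≤ 1) {u v : V}
    (hu : u ∈ p.support) (h : H.Adj u v) : p.toSubgraph.Adj u v := by
  have key : dg H u ≤ (p.toSubgraph.neighborSet u).ncard := by
    obtain ⟨i, hi, hil⟩ := Walk.mem_support_iff_exists_getVert.1 hu
    by_cases h0 : i = 0
    · subst h0
      rw [Walk.getVert_zero] at hi
      subst hi
      rw [hp.neighborSet_toSubgraph_startpoint hn, Set.ncard_singleton]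
      exact hx
    · by_cases h1 : i = p.length
      · subst h1
        rw [Walk.getVert_length] at hi
        subst hi
        rw [hp.neighborSet_toSubgraph_endpoint hn, Set.ncard_singleton]
        exact hy
      · rw [← hi, hp.ncard_neighborSet_toSubgraph_internal_eq_two h0 (by omega)]
        exact hd _
  have h2 : p.toSubgraph.neighborSet u = H.neighborSet u :=
    Set.eq_of_subset_of_ncard_le (p.toSubgraph.neighborSet_subset u)
      (by rw [ncard_nbr]; exact key) (Set.toFinite _)
  have : v ∈ p.toSubgraph.neighborSet u := by rw [h2]; exact h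
  exact this

omit [Fintype V] in
lemma closed_reachable {H : SimpleGraph V} {s : V → Prop}
    (hs : ∀ u v, s u → H.Adj u v → s v) {u v : V} (hu : s u) (h : H.Reachable u v) : s v := by
  obtain ⟨w⟩ := h
  induction w with
  | nil => exact hu
  | cons hadj _ ih => exact ih (hs _ _ hu hadj)

lemma path_closed' {H : SimpleGraph V} (hd : ∀ v, dg H v ≤ 2) {x y : V} (p : H.Walk x y)
    (hp : p.IsPath) (hn : ¬ p.Nil) (hx : dg H x ≤ 1) (hy : dg H y ≤ 1) {v : V}
    (h : H.Reachable x v) : v ∈ p.support := by
  refine closed_reachable (s := fun v => v ∈ p.support) ?_ p.start_mem_support h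
  intro u v hu huv
  have h1 := path_closed hd p hp hn hx hy hu huv
  have := p.toSubgraph.edge_vert h1.symm
  exact (p.mem_verts_toSubgraph).1 this

/-- Three distinct vertices of degree at most one are not in one component of a graph of maximum
degree two. -/
lemma no_three {H : SimpleGraph V} (hd : ∀ v, dg H v ≤ 2) {x y z : V} (hxy : x ≠ y) (hxz : x ≠ z)
    (hyz : y ≠ z) (hx : dg H x ≤ 1) (hy : dg H y ≤ 1) (hz : dg H z ≤ 1)
    (h1 : H.Reachable x y) (h2 : H.Reachable x z) : False := by
  obtain ⟨p, hp⟩ := h1.exists_isPath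
  have hn : ¬ p.Nil := fun h => hxy h.eq
  have hzp := path_closed' hd p hp hn hx hy h2
  obtain ⟨i, hi, hil⟩ := Walk.mem_support_iff_exists_getVert.1 hzp
  have h0 : i ≠ 0 := by
    rintro rfl
    rw [Walk.getVert_zero] at hi
    exact hxz hi
  have h1 : i ≠ p.length := by
    rintro rfl
    rw [Walk.getVert_length] at hi
    exact hyz hi
  have h3 := hp.ncard_neighborSet_toSubgraph_internal_eq_two h0 (by omega)
  rw [hi] at h3
  have h4 := Set.ncard_le_ncard (p.toSubgraph.neighborSet_subset z) (Set.toFinite _)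
  rw [ncard_nbr] at h4
  omega

/-- In an acyclic graph every non-isolated vertex is joined by a path to another vertex of degree
one. -/
lemma exists_leaf {H : SimpleGraph V} (hH : H.IsAcyclic) {u v : V} (huv : H.Adj u v) :
    ∃ z, z ≠ u ∧ dg H z = 1 ∧ H.Reachable u z := by
  let S : Set ℕ := {n | ∃ (z : V) (p : H.Walk u z), p.IsPath ∧ p.length = n}
  have hne : S.Nonempty := ⟨0, u, Walk.nil, Walk.IsPath.nil, rfl⟩
  have hb : BddAbove S := by
    refine ⟨Fintype.card V, ?_⟩
    rintro n ⟨z, p, hp, rfl⟩
    exact hp.length_lt.le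
  obtain ⟨z, p, hp, hl⟩ := Nat.sSup_mem hne hb
  have hmax : ∀ (z' : V) (q : H.Walk u z'), q.IsPath → q.length ≤ p.length := by
    intro z' q hq
    rw [hl]
    exact le_csSup hb ⟨z', q, hq, rfl⟩
  have hpos : 0 < p.length := by
    have h1 : (Walk.cons huv Walk.nil : H.Walk u v).IsPath := by
      rw [Walk.cons_isPath_iff]
      exact ⟨Walk.IsPath.nil, by simpa using huv.ne⟩
    have := hmax v _ h1
    simp only [Walk.length_cons, Walk.length_nil] at this
    omega
  have hn : ¬ p.Nil := Walk.not_nil_iff_lt_length.2 hpos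
  have hzu : z ≠ u := by
    rintro rfl
    rw [Walk.isPath_iff_nil] at hp
    exact hn hp
  have hpen : H.Adj z p.penultimate := (p.adj_penultimate hn).symm
  refine ⟨z, hzu, ?_, ⟨p⟩⟩
  have h1 : dg H z ≤ 1 := by
    have key : ∀ t, H.Adj z t → t = p.penultimate := by
      intro t ht
      by_cases hts : t ∈ p.support
      · exact hH.eq_penultimate_of_adj_end hp ht hts
      · exfalso
        have h2 := hmax t (p.concat ht) (hp.concat hts ht)
        rw [Walk.length_concat] at h2
        omega
    exact dg_le_one_of (fun a b ha hb => by rw [key a ha, key b hb])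
  have h2 := dg_pos hpen
  omega

/-- An acyclic graph of maximum degree two with exactly two vertices of odd degree is a path. -/
theorem extract {H : SimpleGraph V} (hH : H.IsAcyclic) (hd : ∀ v, dg H v ≤ 2) {x y : V}
    (hxy : x ≠ y) (hx : Odd (dg H x)) (hy : Odd (dg H y))
    (ho : ∀ z, Odd (dg H z) → z = x ∨ z = y) :
    ∃ p : H.Walk x y, p.IsPath ∧ ∀ a b, s(a, b) ∈ p.edges ↔ H.Adj a b := by
  have h1 : ∀ z, Odd (dg H z) → dg H z = 1 := by
    intro z hz
    have := hd z
    obtain ⟨k, hk⟩ := hz
    omega
  have hx1 := h1 x hx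
  have hy1 := h1 y hy
  obtain ⟨x', hxx'⟩ := exists_of_dg_pos (show 0 < dg H x by omega)
  obtain ⟨z, hzx, hz1, hreach⟩ := exists_leaf hH hxx'
  have hzy : z = y := by
    rcases ho z (by rw [hz1]; exact odd_one) with h | h
    · exact absurd h hzx
    · exact h
  subst hzy
  obtain ⟨p, hp⟩ := hreach.exists_isPath
  have hn : ¬ p.Nil := fun h => hxy h.eq
  refine ⟨p, hp, fun a b => ⟨fun h => p.adj_of_mem_edges h, fun h => ?_⟩⟩
  have ha : a ∈ p.support := by
    obtain ⟨t, hta, ht1, htr⟩ := exists_leaf hH h
    rcases ho t (by rw [ht1]; exact odd_one) with h2 | h2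
    · rw [h2] at htr
      exact path_closed' hd p hp hn hx1.le hy1.le htr.symm
    · rw [h2] at htr
      exact path_closed' hd p hp hn hx1.le hy1.le (hreach.trans htr.symm)
  have := path_closed hd p hp hn hx1.le hy1.le ha h
  rwa [Walk.adj_toSubgraph_iff_mem_edges] at this

lemma acyclic_of_dg_le_one {H : SimpleGraph V} (hd : ∀ v, dg H v ≤ 1) : H.IsAcyclic := by
  intro v c hc
  have h1 := hc.ncard_neighborSet_toSubgraph_eq_two c.start_mem_support
  have h2 := Set.ncard_le_ncard (c.toSubgraph.neighborSet_subset v) (Set.toFinite _)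
  rw [ncard_nbr] at h2
  have := hd v
  omega

/-- Removing from a graph of maximum degree two a subgraph which meets every nontrivial component
leaves an acyclic graph. -/
lemma acyclic_sdiff {F S : SimpleGraph V} (hd : ∀ v, dg F v ≤ 2) (hS : S ≤ F)
    (hm : ∀ x y, F.Adj x y → ∃ a b, S.Adj a b ∧ F.Reachable x a) : (F \ S).IsAcyclic := by
  intro v c hc
  have key : ∀ u ∈ c.support, ∀ w, F.Adj u w → c.toSubgraph.Adj u w := by
    intro u hu w huw
    have h1 := hc.ncard_neighborSet_toSubgraph_eq_two hu
    have h2 : c.toSubgraph.neighborSet u = F.neighborSet u :=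
      Set.eq_of_subset_of_ncard_le
        (fun t ht => (c.toSubgraph.neighborSet_subset u ht).1)
        (by rw [ncard_nbr, h1]; exact hd u) (Set.toFinite _)
    have : w ∈ c.toSubgraph.neighborSet u := by rw [h2]; exact huw
    exact this
  have hsnd : (F \ S).Adj v c.snd := c.adj_snd hc.not_nil
  obtain ⟨a, b, hab, hr⟩ := hm v _ hsnd.1
  have ha : a ∈ c.support := by
    refine closed_reachable (H := F) (s := fun v => v ∈ c.support) ?_ c.start_mem_support hr
    intro u w hu huw
    have := c.toSubgraph.edge_vert (key u hu w huw).symm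
    exact (c.mem_verts_toSubgraph).1 this
  have := (key a ha b (hS hab)).adj_sub
  exact this.2 hab

end Pool.Agent.U913.OC
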