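import Pool.Agent.U913.OC.Basic

set_option autoImplicit false

/-!
# Choosing one edge in every cycle of two edge-disjoint families of cycles
-/

namespace Pool.Agent.U913.OC

open SimpleGraph Finset
open scoped Classical

variable {V : Type} [Fintype V]

/-- All degrees are zero or two. -/
def Two (F : SimpleGraph V) : Prop := ∀ v, dg F v = 0 ∨ dg F v = 2

lemma Two.le {F : SimpleGraph V} (hF : Two F) (v : V) : dg F v ≤ 2 := by
  rcases hF v with h | h <;> omega

lemma Two.nbrs {F : SimpleGraph V} (hF : Two F) {v w : V} (h : F.Adj v w) :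
    ∃ u, u ≠ w ∧ ∀ z, F.Adj v z ↔ (z = w ∨ z = u) := by
  rcases hF v with h0 | h2
  · exact absurd h (dg_zero h0 w)
  · obtain ⟨a, b, hab, hn⟩ := dg_two h2
    rcases (hn w).1 h with rfl | rfl
    · exact ⟨b, hab.symm, hn⟩
    · exact ⟨a, hab, fun z => by rw [hn, or_comm]⟩

omit [Fintype V] in
lemma adj_of_reachable {F : SimpleGraph V} {x y : V} (h : F.Reachable x y) (hne : x ≠ y) :
    ∃ z, F.Adj y z := by
  obtain ⟨p⟩ := h.symm
  cases p with
  | nil => exact absurd rfl hne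
  | cons hadj _ => exact ⟨_, hadj⟩

/-- `u` is not isolated and has the same neighbours as `v`. -/
def Bad (F : SimpleGraph V) (u v : V) : Prop := (∃ z, F.Adj u z) ∧ ∀ z, F.Adj u z ↔ F.Adj v z

lemma avoid_aux {F : SimpleGraph V} (hF : Two F) {u v x x' : V} (huv : u ≠ v)
    (hna : ¬ F.Adj u v) (hx : F.Adj x x') (hxu : x ≠ u) (hxv : x ≠ v)
    (hbad : ¬ (F.Reachable x u ∧ Bad F u v)) :
    ∃ a b, F.Adj a b ∧ F.Reachable x a ∧ a ≠ u ∧ a ≠ v ∧ b ≠ u ∧ b ≠ v := by
  by_contra hcon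
  push Not at hcon
  have h1 : ∀ b, F.Adj x b → b ≠ u → b = v := fun b hb hbu =>
    hcon x b hb (Reachable.refl x) hxu hxv hbu
  obtain ⟨z, hzx', hz⟩ := hF.nbrs hx
  have hxz : F.Adj x z := (hz z).2 (Or.inr rfl)
  -- `x` is adjacent to both `u` and `v`
  have hboth : F.Adj x u ∧ F.Adj x v := by
    by_cases h2 : x' = u
    · subst h2
      have h3 := h1 z hxz hzx'
      rw [h3] at hxz
      exact ⟨hx, hxz⟩
    · have h3 := h1 x' hx h2
      subst h3
      by_cases h4 : z = u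
      · rw [h4] at hxz
        exact ⟨hxz, hx⟩
      · exact absurd (h1 z hxz h4) hzx'
  obtain ⟨hu, hv⟩ := hboth
  obtain ⟨x2, hx2, hNu⟩ := hF.nbrs hu.symm
  have hux2 : F.Adj u x2 := (hNu x2).2 (Or.inr rfl)
  have hx2v : x2 ≠ v := by
    rintro rfl
    exact hna hux2
  obtain ⟨t, htu, hNx2⟩ := hF.nbrs hux2.symm
  have hx2t : F.Adj x2 t := (hNx2 t).2 (Or.inr rfl)
  have ht : t = v := hcon x2 t hx2t (hu.reachable.trans hux2.reachable) hux2.ne' hx2v htu
  rw [ht] at hx2t
  obtain ⟨s, hs, hNv⟩ := hF.nbrs hv.symm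
  have hsx2 : x2 = s := by
    rcases (hNv x2).1 hx2t.symm with h | h
    · exact absurd h hx2
    · exact h
  apply hbad
  refine ⟨hu.reachable, ⟨x2, hux2⟩, fun z => ?_⟩
  rw [hNu, hNv, hsx2]

lemma avoid {F : SimpleGraph V} (hF : Two F) {u v x x' : V} (huv : u ≠ v)
    (hna : ¬ F.Adj u v) (hx : F.Adj x x') (hbad : ¬ (F.Reachable x u ∧ Bad F u v)) :
    ∃ a b, F.Adj a b ∧ F.Reachable x a ∧ a ≠ u ∧ a ≠ v ∧ b ≠ u ∧ b ≠ v := by
  have main : F.Adj x' x → x' ≠ u → x' ≠ v →
      ∃ a b, F.Adj a b ∧ F.Reachable x a ∧ a ≠ u ∧ a ≠ v ∧ b ≠ u ∧ b ≠ v := by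
    intro h1 h2 h3
    obtain ⟨a, b, hab, hr, h⟩ := avoid_aux hF huv hna h1 h2 h3
      (fun h => hbad ⟨h1.symm.reachable.trans h.1, h.2⟩)
    exact ⟨a, b, hab, hx.reachable.trans hr, h⟩
  by_cases hxu : x = u
  · subst hxu
    refine main hx.symm hx.ne' ?_
    rintro rfl
    exact hna hx
  · by_cases hxv : x = v
    · subst hxv
      refine main hx.symm ?_ hx.ne'
      rintro rfl
      exact hna hx.symm
    · exact avoid_aux hF huv hna hx hxu hxv hbad

/-- The choice of `w, w', u, v`. -/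
lemma choice {F₁ F₂ : SimpleGraph V} (h₁ : Two F₁) (h₂ : Two F₂)
    (hd : ∀ v w, F₁.Adj v w → ¬ F₂.Adj v w) {w₀ a₀ b₀ : V} (hw₁ : F₁.Adj w₀ a₀)
    (hw₂ : F₂.Adj w₀ b₀) :
    ∃ w w' u v, F₂.Adj w w' ∧ F₁.Adj u v ∧ F₁.Reachable w u ∧ u ≠ w ∧ u ≠ w' ∧ v ≠ w ∧ v ≠ w' ∧
      (Bad F₂ u v → F₂.Reachable w u) := by
  -- the case of a neighbour in another cycle
  have caseB : ∀ w', F₂.Adj w₀ w' → ¬ F₁.Reachable w₀ w' →
      ∃ w w' u v, F₂.Adj w w' ∧ F₁.Adj u v ∧ F₁.Reachable w u ∧ u ≠ w ∧ u ≠ w' ∧ v ≠ w ∧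
        v ≠ w' ∧ (Bad F₂ u v → F₂.Reachable w u) := by
    intro w' hw' hnr
    have option : ∀ u v, F₁.Adj u v → F₁.Reachable w₀ u → u ≠ w₀ → v ≠ w₀ →
        (Bad F₂ u v → F₂.Reachable w₀ u) →
        ∃ w w' u v, F₂.Adj w w' ∧ F₁.Adj u v ∧ F₁.Reachable w u ∧ u ≠ w ∧ u ≠ w' ∧ v ≠ w ∧
          v ≠ w' ∧ (Bad F₂ u v → F₂.Reachable w u) := by
      intro u v huv hr hu hv hb
      refine ⟨w₀, w', u, v, hw', huv, hr, hu, ?_, hv, ?_, hb⟩
      · rintro rfl
        exact hnr hr
      · rintro rfl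
        exact hnr (hr.trans huv.reachable)
    obtain ⟨a2, ha2, hNw⟩ := h₁.nbrs hw₁
    obtain ⟨b, hb, hNa⟩ := h₁.nbrs hw₁.symm
    have hab : F₁.Adj a₀ b := (hNa b).2 (Or.inr rfl)
    by_cases hba : b = a2
    · by_cases hbad : Bad F₂ a₀ a2 → F₂.Reachable w₀ a₀
      · exact option a₀ a2 (hba ▸ hab) hw₁.reachable hw₁.ne' (hba ▸ hb) hbad
      · rw [Classical.not_imp] at hbad
        obtain ⟨⟨⟨p, hp⟩, hN⟩, hnr2⟩ := hbad
        have hp2 : F₂.Adj a2 p := (hN p).1 hp
        refine ⟨a₀, p, a2, w₀, hp, ((hNw a2).2 (Or.inr rfl)).symm, (hba ▸ hab).reachable, ha2,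
          hp2.ne, hw₁.ne, ?_, fun _ => hp.reachable.trans hp2.symm.reachable⟩
        rintro rfl
        exact hnr2 hp.symm.reachable
    · obtain ⟨c, hc, hNb⟩ := h₁.nbrs hab.symm
      have hbc : F₁.Adj b c := (hNb c).2 (Or.inr rfl)
      have hcw : c ≠ w₀ := by
        rintro rfl
        rcases (hNw b).1 hbc.symm with h | h
        · exact hab.ne' h
        · exact hba h
      by_cases hbad : Bad F₂ a₀ b → F₂.Reachable w₀ a₀
      · exact option a₀ b hab hw₁.reachable hw₁.ne' hb hbad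
      · by_cases hbad2 : Bad F₂ b c → F₂.Reachable w₀ b
        · exact option b c hbc (hw₁.reachable.trans hab.reachable) hb hcw hbad2
        · exfalso
          rw [Classical.not_imp] at hbad hbad2
          obtain ⟨⟨⟨p, hp⟩, hN⟩, -⟩ := hbad
          obtain ⟨⟨-, hN2⟩, -⟩ := hbad2
          have hbp : F₂.Adj b p := (hN p).1 hp
          have hcp : F₂.Adj c p := (hN2 p).1 hbp
          obtain ⟨q, hq, hNp⟩ := h₂.nbrs hp.symm
          have h3 : b = q := by
            rcases (hNp b).1 hbp.symm with h | h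
            · exact absurd h hab.ne'
            · exact h
          have h4 : c = q := by
            rcases (hNp c).1 hcp.symm with h | h
            · exact absurd h hc
            · exact h
          exact hbc.ne (h3.trans h4.symm)
  obtain ⟨b1, hb1, hNw2⟩ := h₂.nbrs hw₂
  have hw2b : F₂.Adj w₀ b1 := (hNw2 b1).2 (Or.inr rfl)
  by_cases hr0 : F₁.Reachable w₀ b₀
  · by_cases hr1 : F₁.Reachable w₀ b1
    · obtain ⟨p, hp⟩ := adj_of_reachable hr1 hw2b.ne
      obtain ⟨q, hqp, hNb⟩ := h₁.nbrs hp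
      have hq : F₁.Adj b1 q := (hNb q).2 (Or.inr rfl)
      have hfin : ∀ v, F₁.Adj b1 v → v ≠ b₀ →
          ∃ w w' u v, F₂.Adj w w' ∧ F₁.Adj u v ∧ F₁.Reachable w u ∧ u ≠ w ∧ u ≠ w' ∧ v ≠ w ∧
            v ≠ w' ∧ (Bad F₂ u v → F₂.Reachable w u) := by
        intro v hv hvb
        refine ⟨w₀, b₀, b1, v, hw₂, hv, hr1, hw2b.ne', hb1, ?_, hvb, fun _ => hw2b.reachable⟩
        rintro rfl
        exact hd _ _ hv hw2b.symm
      by_cases h3 : p = b₀
      · exact hfin q hq (fun h => hqp (h.trans h3.symm))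
      · exact hfin p hp h3
    · exact caseB b1 hw2b hr1
  · exact caseB b₀ hw₂ hr0

/-- A matching consisting of one edge in every cycle, with prescribed behaviour. -/
lemma exists_matching {F : SimpleGraph V} (hF : Two F) {w w' u v : V} (hw : F.Adj w w')
    (huv : u ≠ v) (hna : ¬ F.Adj u v) (h1 : u ≠ w) (h2 : u ≠ w') (h3 : v ≠ w) (h4 : v ≠ w')
    (hbad : Bad F u v → F.Reachable w u) :
    ∃ M ≤ F, (∀ x, dg M x ≤ 1) ∧ M.Adj w w' ∧ dg M u = 0 ∧ dg M v = 0 ∧
      ∀ x y, F.Adj x y → ∃ a b, M.Adj a b ∧ F.Reachable x a := by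
  have hch : ∀ D : F.ConnectedComponent, ∃ e : V × V,
      (∀ x y, F.Adj x y → F.connectedComponentMk x = D →
        F.Adj e.1 e.2 ∧ F.connectedComponentMk e.1 = D ∧ e.1 ≠ u ∧ e.1 ≠ v ∧ e.2 ≠ u ∧ e.2 ≠ v) ∧
      (F.connectedComponentMk w = D → e = (w, w')) := by
    intro D
    by_cases hD : F.connectedComponentMk w = D
    · exact ⟨(w, w'), fun _ _ _ _ => ⟨hw, hD, h1.symm, h3.symm, h2.symm, h4.symm⟩, fun _ => rfl⟩
    · by_cases hx : ∃ x y, F.Adj x y ∧ F.connectedComponentMk x = D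
      · obtain ⟨x, y, hxy, hxD⟩ := hx
        obtain ⟨a, b, hab, hr, ha⟩ := avoid hF huv hna hxy (by
          rintro ⟨hr, hb⟩
          apply hD
          rw [← hxD, ConnectedComponent.eq]
          exact (hbad hb).trans hr.symm)
        refine ⟨(a, b), fun _ _ _ _ => ⟨hab, ?_, ha⟩, fun h => absurd h hD⟩
        rw [← hxD, ConnectedComponent.eq]
        exact hr.symm
      · exact ⟨(w, w'), fun x y hxy hxD => absurd ⟨x, y, hxy, hxD⟩ hx, fun _ => rfl⟩
  choose e he1 he2 using hch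
  have hcomp : ∀ a b, F.Adj a b → F.connectedComponentMk a = F.connectedComponentMk b :=
    fun a b h => ConnectedComponent.eq.2 h.reachable
  let M : SimpleGraph V :=
    { Adj := fun a b => F.Adj a b ∧ ((a, b) = e (F.connectedComponentMk a) ∨
        (b, a) = e (F.connectedComponentMk a))
      symm := ⟨fun a b h => ⟨h.1.symm, by rw [← hcomp a b h.1]; exact h.2.symm⟩⟩
      loopless := ⟨fun a h => h.1.ne rfl⟩ }
  have hMd : ∀ a b, M.Adj a b ↔ F.Adj a b ∧ ((a, b) = e (F.connectedComponentMk a) ∨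
        (b, a) = e (F.connectedComponentMk a)) := fun a b => Iff.rfl
  have hav : ∀ a b, M.Adj a b → a ≠ u ∧ a ≠ v := by
    intro a b hab
    rw [hMd] at hab
    have := he1 _ a b hab.1 rfl
    rcases hab.2 with h | h <;> rw [← h] at this
    · exact ⟨this.2.2.1, this.2.2.2.1⟩
    · exact ⟨this.2.2.2.2.1, this.2.2.2.2.2⟩
  refine ⟨M, fun a b h => h.1, ?_, ?_, ?_, ?_, ?_⟩
  · intro x
    apply dg_le_one_of
    intro a b ha hb
    rw [hMd] at ha hb
    obtain ⟨ha1, ha2⟩ := ha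
    obtain ⟨hb1, hb2⟩ := hb
    rcases ha2 with h | h <;> rcases hb2 with h' | h' <;> rw [← h] at h' <;>
      simp only [Prod.mk.injEq] at h'
    · exact h'.2.symm
    · exact absurd h'.2 ha1.ne
    · exact absurd h'.1 ha1.ne
    · exact h'.1.symm
  · rw [hMd]
    exact ⟨hw, Or.inl (he2 _ rfl).symm⟩
  · by_contra h
    obtain ⟨b, hb⟩ := exists_of_dg_pos (Nat.pos_of_ne_zero h)
    exact (hav u b hb).1 rfl
  · by_contra h
    obtain ⟨b, hb⟩ := exists_of_dg_pos (Nat.pos_of_ne_zero h)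
    exact (hav v b hb).2 rfl
  · intro x y hxy
    obtain ⟨g1, g2, -⟩ := he1 _ x y hxy rfl
    refine ⟨(e (F.connectedComponentMk x)).1, (e (F.connectedComponentMk x)).2, ?_, ?_⟩
    · rw [hMd]
      refine ⟨g1, Or.inl ?_⟩
      rw [g2]
    · exact (ConnectedComponent.eq.1 g2).symm

lemma dg_sup_le (A B : SimpleGraph V) (v : V) : dg (A ⊔ B) v ≤ dg A v + dg B v := by
  unfold dg
  rw [← Finset.card_union_add_card_inter]
  refine le_trans (Finset.card_le_card ?_) (Nat.le_add_right _ _)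
  intro w hw
  simp only [mem_filter, mem_univ, true_and, mem_union, sup_adj] at hw ⊢
  exact hw

/-- Adding one edge of every cycle in a family to a matching, without creating a cycle. -/
lemma extend_matching {F M : SimpleGraph V} (hF : Two F) (hM : ∀ x, dg M x ≤ 1)
    (C : Finset F.ConnectedComponent) :
    ∃ S ≤ F, (∀ x, dg S x ≤ 1) ∧ (M ⊔ S).IsAcyclic ∧
      (∀ a b, S.Adj a b → F.connectedComponentMk a ∈ C) ∧
      (∀ x y, F.Adj x y → F.connectedComponentMk x ∈ C → ∃ a b, S.Adj a b ∧ F.Reachable x a) := by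
  induction C using Finset.induction_on with
  | empty =>
    refine ⟨⊥, bot_le, ?_, ?_, ?_, ?_⟩
    · intro x
      apply dg_le_one_of
      intro a b ha
      simp at ha
    · rw [sup_bot_eq]
      exact acyclic_of_dg_le_one hM
    · intro a b h
      simp at h
    · intro x y _ h
      simp at h
  | insert D C hD ih =>
    obtain ⟨S, hSF, hS1, hac, hSC, hmeet⟩ := ih
    by_cases hx : ∃ x y, F.Adj x y ∧ F.connectedComponentMk x = D
    · obtain ⟨x, y, hxy, hxD⟩ := hx
      obtain ⟨z, hzy, hN⟩ := hF.nbrs hxy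
      have hxz : F.Adj x z := (hN z).2 (Or.inr rfl)
      have hS0 : ∀ a, F.Reachable x a → dg S a = 0 := by
        intro a ha
        by_contra h
        obtain ⟨b, hb⟩ := exists_of_dg_pos (Nat.pos_of_ne_zero h)
        have h2 := hSC a b hb
        rw [← ConnectedComponent.eq.2 ha, hxD] at h2
        exact hD h2
      have hd1 : ∀ a, F.Reachable x a → dg (M ⊔ S) a ≤ 1 := by
        intro a ha
        have h1 := dg_sup_le M S a
        have h2 := hS0 a ha
        have h3 := hM a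
        omega
      have hd2 : ∀ a, dg (M ⊔ S) a ≤ 2 := by
        intro a
        have h1 := dg_sup_le M S a
        have h2 := hS1 a
        have h3 := hM a
        omega
      obtain ⟨y', hxy', hnr⟩ : ∃ y', F.Adj x y' ∧ ¬ (M ⊔ S).Reachable x y' := by
        by_contra hcon
        push Not at hcon
        exact no_three hd2 hxy.ne hxz.ne hzy.symm (hd1 x (Reachable.refl x))
          (hd1 y hxy.reachable) (hd1 z hxz.reachable) (hcon y hxy) (hcon z hxz)
      have hnS : ¬ S.Adj x y' := dg_zero (hS0 x (Reachable.refl x)) y'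
      refine ⟨S ⊔ edge x y', ?_, ?_, ?_, ?_, ?_⟩
      · intro a b hab
        rw [sup_adj, edge_adj] at hab
        rcases hab with h | ⟨⟨rfl, rfl⟩ | ⟨rfl, rfl⟩, _⟩
        · exact hSF h
        · exact hxy'
        · exact hxy'.symm
      · intro a
        rw [dg_sup_edge hxy'.ne hnS]
        split_ifs with h
        · have : dg S a = 0 := by
            rcases h with rfl | rfl
            · exact hS0 a (Reachable.refl a)
            · exact hS0 a hxy'.reachable
          omega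
        · exact hS1 a
      · rw [← sup_assoc]
        exact IsAcyclic.sup_edge_of_not_reachable hnr hac
      · intro a b hab
        rw [sup_adj, edge_adj] at hab
        rcases hab with h | ⟨⟨rfl, rfl⟩ | ⟨rfl, rfl⟩, _⟩
        · exact Finset.mem_insert_of_mem (hSC a b h)
        · rw [hxD]; exact Finset.mem_insert_self _ _
        · rw [← ConnectedComponent.eq.2 hxy'.reachable, hxD]; exact Finset.mem_insert_self _ _
      · intro a b hab haC
        rw [Finset.mem_insert] at haC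
        rcases haC with h | h
        · refine ⟨x, y', ?_, ?_⟩
          · rw [sup_adj, edge_adj]
            exact Or.inr ⟨Or.inl ⟨rfl, rfl⟩, hxy'.ne⟩
          · rw [← ConnectedComponent.eq, h, hxD]
        · obtain ⟨s, t, hst, hr⟩ := hmeet a b hab h
          exact ⟨s, t, Or.inl hst, hr⟩
    · refine ⟨S, hSF, hS1, hac, fun a b h => Finset.mem_insert_of_mem (hSC a b h), ?_⟩
      intro a b hab haC
      rw [Finset.mem_insert] at haC
      rcases haC with h | h
      · exact absurd ⟨a, b, hab, h⟩ hx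
      · exact hmeet a b hab h

end Pool.Agent.U913.OC
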