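import Pool.Agent.U913.OC.Basic
import Pool.Agent.TH505.OCDC.Decomp

set_option autoImplicit false

/-!
# Splitting an even graph of maximum degree four into two graphs of degrees zero and two
-/

namespace Pool.Agent.U913.OC

open SimpleGraph Finset
open scoped Classical

/-- Two fixed-point-free involutions of a finite set have a common proper two-colouring. -/
theorem two_involutions {X : Type} [Finite X] (a b : X → X) (ha : ∀ x, a (a x) = x)
    (hb : ∀ x, b (b x) = x) (ha' : ∀ x, a x ≠ x) (hb' : ∀ x, b x ≠ x) :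
    ∃ c : X → Bool, (∀ x, c (a x) = !c x) ∧ ∀ x, c (b x) = !c x := by
  let A : Equiv.Perm X := ⟨a, a, ha, ha⟩
  let B : Equiv.Perm X := ⟨b, b, hb, hb⟩
  have hAA : A * A = 1 := by ext x; exact ha x
  have hBB : B * B = 1 := by ext x; exact hb x
  have hA' : A⁻¹ = A := inv_eq_of_mul_eq_one_left hAA
  have hB' : B⁻¹ = B := inv_eq_of_mul_eq_one_left hBB
  let p : Equiv.Perm X := A * B
  have hconj : ∀ k : ℤ, A * p ^ k = p ^ (-k) * A := by
    intro k
    have h1 : A * p * A⁻¹ = p⁻¹ := by
      simp only [p, mul_inv_rev, hA', hB']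
      rw [← mul_assoc, hAA, one_mul]
    have h2 : (A * p * A⁻¹) ^ k = A * p ^ k * A⁻¹ := conj_zpow
    rw [h1, inv_zpow, ← zpow_neg] at h2
    rw [h2, inv_mul_cancel_right]
  have hconj' : ∀ (k : ℤ) (x : X), A ((p ^ k) x) = (p ^ (-k)) (A x) := by
    intro k x
    have := congrArg (fun q : Equiv.Perm X => q x) (hconj k)
    simpa using this
  have hAp : ∀ x, B x = A (p x) := by
    intro x
    show b x = a (a (b x))
    rw [ha]
  have hmul : ∀ (m n : ℤ) (x : X), (p ^ m) ((p ^ n) x) = (p ^ (m + n)) x := by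
    intro m n x
    rw [zpow_add]
    rfl
  have hne : ∀ (x : X) (k : ℤ), (p ^ k) x ≠ A x := by
    intro x k hk
    obtain ⟨j, hj | hj⟩ := Int.even_or_odd' k
    · apply ha' ((p ^ j) x)
      have h1 := hconj' j x
      rw [← hk, hmul, hj] at h1
      have h2 : -j + 2 * j = j := by ring
      rw [h2] at h1
      exact h1
    · apply hb' ((p ^ j) x)
      have h0 : p ((p ^ j) x) = (p ^ (j + 1)) x := by
        have := hmul 1 j x
        rw [zpow_one] at this
        rw [this, add_comm]
      have h1 := hconj' (j + 1) x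
      rw [← hk, hmul, hj] at h1
      have h2 : -(j + 1) + (2 * j + 1) = j := by ring
      rw [h2, ← h0, ← hAp] at h1
      exact h1
  let Q := Quotient (Equiv.Perm.SameCycle.setoid p)
  obtain ⟨n, ⟨e⟩⟩ := Finite.exists_equiv_fin Q
  let r : X → Fin n := fun x => e (Quotient.mk _ x)
  have hr : ∀ x y, r x = r y ↔ ∃ k : ℤ, (p ^ k) x = y := by
    intro x y
    constructor
    · intro h
      exact Quotient.exact (e.injective h)
    · intro h
      show e _ = e _
      congr 1
      exact Quotient.sound h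
  have hrA : ∀ x y, r x = r y → r (A x) = r (A y) := by
    intro x y h
    obtain ⟨k, hk⟩ := (hr x y).1 h
    rw [hr]
    exact ⟨-k, by rw [← hconj', hk]⟩
  have hrp : ∀ x, r (p x) = r x := by
    intro x
    symm
    rw [hr]
    exact ⟨1, by rw [zpow_one]⟩
  have hrne : ∀ x, r x ≠ r (A x) := by
    intro x h
    obtain ⟨k, hk⟩ := (hr _ _).1 h
    exact hne x k hk
  have hrB : ∀ x, r (B x) = r (A x) := by
    intro x
    rw [hAp]
    exact hrA _ _ (hrp x)
  refine ⟨fun x => decide (r x < r (A x)), ?_, ?_⟩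
  · intro x
    have h1 : r (A (a x)) = r x := by
      congr 1
      exact ha x
    have h2 : r (a x) = r (A x) := rfl
    have h3 := hrne x
    show decide (r (a x) < r (A (a x))) = !decide (r x < r (A x))
    rw [h1, h2, Bool.eq_iff_iff]
    simp only [decide_eq_true_eq, Bool.not_eq_true', decide_eq_false_iff_not, not_lt]
    constructor
    · exact le_of_lt
    · intro h; exact lt_of_le_of_ne h (Ne.symm h3)
  · intro x
    have h1 : r (A (b x)) = r x := hrp x
    have h2 : r (b x) = r (A x) := hrB x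
    have h3 := hrne x
    show decide (r (b x) < r (A (b x))) = !decide (r x < r (A x))
    rw [h1, h2, Bool.eq_iff_iff]
    simp only [decide_eq_true_eq, Bool.not_eq_true', decide_eq_false_iff_not, not_lt]
    constructor
    · exact le_of_lt
    · intro h; exact lt_of_le_of_ne h (Ne.symm h3)

variable {V : Type} [Fintype V]

/-- No element, or exactly two elements, satisfy `P`. -/
def ZT {V : Type} (P : V → Prop) : Prop :=
  (∀ w, ¬ P w) ∨ ∃ x y, x ≠ y ∧ ∀ w, P w ↔ (w = x ∨ w = y)

lemma dg_of_ZT {G : SimpleGraph V} {v : V} (h : ZT (fun w => G.Adj v w)) :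
    dg G v = 0 ∨ dg G v = 2 := by
  unfold dg
  rcases h with h | ⟨x, y, hxy, h⟩
  · left
    rw [Finset.card_eq_zero]
    ext w
    simpa using h w
  · right
    rw [Finset.card_eq_two]
    refine ⟨x, y, hxy, ?_⟩
    ext w
    simpa using h w

/-- The local pairing at a vertex. -/
lemma local_pair (N : V → Prop) (g : V → ℤ) (hg : ∀ w, N w → g w = 1 ∨ g w = -1)
    (hg0 : ∀ w, ¬ N w → g w = 0) (hs : ∑ w, g w = 0)
    (h4 : (univ.filter (fun w => N w)).card ≤ 4) :
    ∃ t : V → V, (∀ w, N w → N (t w) ∧ t (t w) = w ∧ t w ≠ w) ∧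
      ∀ k : V → Bool, (∀ w, N w → k (t w) = !k w) →
        ZT (fun w => N w ∧ (g w = 1 ↔ k w = true)) ∧
          ZT (fun w => N w ∧ ¬ (g w = 1 ↔ k w = true)) := by
  let O := univ.filter (fun w => g w = 1)
  let I := univ.filter (fun w => g w = -1)
  have hON : ∀ w, w ∈ O ↔ g w = 1 := by intro w; simp [O]
  have hIN : ∀ w, w ∈ I ↔ g w = -1 := by intro w; simp [I]
  have hNi : ∀ w, N w ↔ g w = 1 ∨ g w = -1 := by
    intro w
    refine ⟨hg w, fun h => ?_⟩
    by_contra hn
    have := hg0 w hn
    omega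
  have hcard : O.card = I.card := by
    have h1 : ∀ w, g w = (if g w = 1 then (1 : ℤ) else 0) - (if g w = -1 then (1 : ℤ) else 0) := by
      intro w
      by_cases hn : N w
      · rcases hg w hn with h | h <;> simp [h]
      · simp [hg0 w hn]
    rw [Finset.sum_congr rfl (fun w _ => h1 w), Finset.sum_sub_distrib, Finset.sum_boole,
      Finset.sum_boole] at hs
    have : ((O.card : ℕ) : ℤ) - (I.card : ℤ) = 0 := hs
    omega
  have hNc : (univ.filter (fun w => N w)).card = O.card + I.card := by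
    rw [← Finset.card_union_of_disjoint]
    · congr 1
      ext w
      rw [mem_filter, mem_union, hON, hIN, hNi]
      simp
    · rw [Finset.disjoint_left]
      intro w hw hw'
      rw [hON] at hw
      rw [hIN] at hw'
      omega
  have hO2 : O.card = 0 ∨ O.card = 1 ∨ O.card = 2 := by omega
  rcases hO2 with h0 | h1 | h2
  · have hN : ∀ w, ¬ N w := by
      intro w hw
      rw [hcard] at hNc
      have h3 : (univ.filter (fun w => N w)).card = 0 := by omega
      rw [Finset.card_eq_zero] at h3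
      have : w ∈ univ.filter (fun w => N w) := by simpa using hw
      rw [h3] at this
      simp at this
    exact ⟨id, fun w hw => absurd hw (hN w), fun k _ => ⟨Or.inl fun w h => hN w h.1,
      Or.inl fun w h => hN w h.1⟩⟩
  · have h1' : I.card = 1 := by omega
    obtain ⟨a, ha⟩ := Finset.card_eq_one.1 h1
    obtain ⟨b, hb⟩ := Finset.card_eq_one.1 h1'
    have hga : ∀ w, g w = 1 ↔ w = a := by intro w; rw [← hON, ha, mem_singleton]
    have hgb : ∀ w, g w = -1 ↔ w = b := by intro w; rw [← hIN, hb, mem_singleton]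
    have hab : a ≠ b := by
      rintro rfl
      have := (hga a).2 rfl
      have := (hgb a).2 rfl
      omega
    have hN' : ∀ w, N w ↔ w = a ∨ w = b := by intro w; rw [hNi, hga, hgb]
    refine ⟨fun w => if w = a then b else a, ?_, ?_⟩
    · intro w hw
      rw [hN'] at hw
      rcases hw with rfl | rfl
      · simp [hN', hab.symm]
      · simp [hN', hab.symm, hab]
    · intro k hk
      have hkb : k b = !k a := by
        have := hk a ((hN' a).2 (Or.inl rfl))
        simpa using this
      rcases hka : k a with _ | _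
      · rw [hka] at hkb
        refine ⟨Or.inl fun w => ?_, Or.inr ⟨a, b, hab, fun w => ?_⟩⟩ <;>
        · simp only [hN', hga]
          grind
      · rw [hka] at hkb
        refine ⟨Or.inr ⟨a, b, hab, fun w => ?_⟩, Or.inl fun w => ?_⟩ <;>
        · simp only [hN', hga]
          grind
  · have h2' : I.card = 2 := by omega
    obtain ⟨a, b, hab, hO⟩ := Finset.card_eq_two.1 h2
    obtain ⟨c, d, hcd, hI⟩ := Finset.card_eq_two.1 h2'
    have hga : ∀ w, g w = 1 ↔ w = a ∨ w = b := by
      intro w; rw [← hON, hO, mem_insert, mem_singleton]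
    have hgb : ∀ w, g w = -1 ↔ w = c ∨ w = d := by
      intro w; rw [← hIN, hI, mem_insert, mem_singleton]
    have hne : ∀ x y, (x = a ∨ x = b) → (y = c ∨ y = d) → x ≠ y := by
      rintro x y hx hy rfl
      have := (hga x).2 hx
      have := (hgb x).2 hy
      omega
    have hac : a ≠ c := hne _ _ (Or.inl rfl) (Or.inl rfl)
    have had : a ≠ d := hne _ _ (Or.inl rfl) (Or.inr rfl)
    have hbc : b ≠ c := hne _ _ (Or.inr rfl) (Or.inl rfl)
    have hbd : b ≠ d := hne _ _ (Or.inr rfl) (Or.inr rfl)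
    have hN' : ∀ w, N w ↔ w = a ∨ w = b ∨ w = c ∨ w = d := by
      intro w; rw [hNi, hga, hgb]; tauto
    refine ⟨fun w => if w = a then b else if w = b then a else if w = c then d else c, ?_, ?_⟩
    · intro w hw
      rw [hN'] at hw
      rcases hw with rfl | rfl | rfl | rfl
      · simp [hN', hab.symm]
      · simp [hN', hab, hab.symm]
      · simp [hN', hac.symm, hbc.symm, had.symm, hbd.symm, hcd.symm]
      · simp [hN', hac.symm, hbc.symm, had.symm, hbd.symm, hcd.symm, hcd]
    · intro k hk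
      have hkb : k b = !k a := by
        have := hk a ((hN' a).2 (Or.inl rfl))
        simpa using this
      have hkd : k d = !k c := by
        have := hk c ((hN' c).2 (Or.inr (Or.inr (Or.inl rfl))))
        simpa [hac.symm, hbc.symm] using this
      rcases hka : k a with _ | _ <;> rcases hkc : k c with _ | _ <;> rw [hka] at hkb <;>
        rw [hkc] at hkd
      · refine ⟨Or.inr ⟨b, c, hbc, fun w => ?_⟩, Or.inr ⟨a, d, had, fun w => ?_⟩⟩ <;>
        · simp only [hN', hga]
          grind
      · refine ⟨Or.inr ⟨b, d, hbd, fun w => ?_⟩, Or.inr ⟨a, c, hac, fun w => ?_⟩⟩ <;>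
        · simp only [hN', hga]
          grind
      · refine ⟨Or.inr ⟨a, c, hac, fun w => ?_⟩, Or.inr ⟨b, d, hbd, fun w => ?_⟩⟩ <;>
        · simp only [hN', hga]
          grind
      · refine ⟨Or.inr ⟨a, d, had, fun w => ?_⟩, Or.inr ⟨b, c, hbc, fun w => ?_⟩⟩ <;>
        · simp only [hN', hga]
          grind

open Pool.Agent.TH505.OCDC in
/-- A graph with all degrees even and at most four is the edge-disjoint union of two graphs with
all degrees zero or two. -/
theorem two_factors (G : SimpleGraph V) (he : ∀ v, Even (dg G v)) (h4 : ∀ v, dg G v ≤ 4) :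
    ∃ F₁ F₂ : SimpleGraph V, (∀ v w, G.Adj v w ↔ (F₁.Adj v w ∨ F₂.Adj v w)) ∧
      (∀ v w, F₁.Adj v w → ¬ F₂.Adj v w) ∧ (∀ v, dg F₁ v = 0 ∨ dg F₁ v = 2) ∧
      (∀ v, dg F₂ v = 0 ∨ dg F₂ v = 2) := by
  have hind : ∀ v, ∑ w, ind (G.Adj v w) = dg G v := by
    intro v
    unfold dg ind
    rw [Finset.card_filter]
  obtain ⟨g, hanti, hg, hg0, hsum⟩ := orient G _ (fun v w => G.Adj v w) rfl (fun _ _ h => h)
    (fun _ _ h => h.symm) (fun v => by rw [hind]; exact he v)
  have hloc := fun v => local_pair (fun w => G.Adj v w) (g v) (hg v) (hg0 v) (hsum v) (h4 v)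
  choose t ht hdeg using hloc
  let X := {q : V × V // G.Adj q.1 q.2}
  obtain ⟨c, hc1, hc2⟩ := two_involutions (X := X) (fun q => ⟨(q.1.2, q.1.1), q.2.symm⟩)
    (fun q => ⟨(q.1.1, t q.1.1 q.1.2), (ht q.1.1 q.1.2 q.2).1⟩)
    (fun q => rfl)
    (fun q => by
      apply Subtype.ext
      exact Prod.ext rfl (ht q.1.1 q.1.2 q.2).2.1)
    (fun q h => by
      have h1 := congrArg (fun q : X => q.1.1) h
      exact q.2.ne h1.symm)
    (fun q h => by
      have h1 := congrArg (fun q : X => q.1.2) h
      exact (ht q.1.1 q.1.2 q.2).2.2 h1)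
  let k : V → V → Bool := fun v w => if h : G.Adj v w then c ⟨(v, w), h⟩ else false
  have hk1 : ∀ v w, G.Adj v w → k w v = !k v w := by
    intro v w h
    simp only [k, dif_pos h, dif_pos h.symm]
    exact hc1 ⟨(v, w), h⟩
  have hk2 : ∀ v w, G.Adj v w → k v (t v w) = !k v w := by
    intro v w h
    simp only [k, dif_pos h, dif_pos (ht v w h).1]
    exact hc2 ⟨(v, w), h⟩
  have hsymm : ∀ v w, G.Adj v w → ((g v w = 1 ↔ k v w = true) ↔ (g w v = 1 ↔ k w v = true)) := by
    intro v w h
    have h1 := hanti v w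
    have h2 := hk1 v w h
    rw [h2]
    rcases hg v w h with h3 | h3 <;> rcases hkk : k v w with _ | _ <;> simp [h1, h3]
  refine ⟨⟨fun v w => G.Adj v w ∧ (g v w = 1 ↔ k v w = true), ?_, ?_⟩,
    ⟨fun v w => G.Adj v w ∧ ¬ (g v w = 1 ↔ k v w = true), ?_, ?_⟩, ?_, ?_, ?_, ?_⟩
  · constructor
    rintro v w ⟨h1, h2⟩
    exact ⟨h1.symm, (hsymm v w h1).1 h2⟩
  · constructor
    rintro v ⟨h1, _⟩
    exact h1.ne rfl
  · constructor
    rintro v w ⟨h1, h2⟩
    exact ⟨h1.symm, fun h => h2 ((hsymm v w h1).2 h)⟩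
  · constructor
    rintro v ⟨h1, _⟩
    exact h1.ne rfl
  · intro v w
    show G.Adj v w ↔ (G.Adj v w ∧ _) ∨ (G.Adj v w ∧ _)
    tauto
  · rintro v w ⟨_, h1⟩ ⟨_, h2⟩
    exact h2 h1
  · intro v
    exact dg_of_ZT (hdeg v (k v) (hk2 v)).1
  · intro v
    exact dg_of_ZT (hdeg v (k v) (hk2 v)).2

end Pool.Agent.U913.OC
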