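import Pool.Agent.U913.OC.Basic

set_option autoImplicit false

/-!
# The linking lemma

Three linear forests whose ends coincide in pairs an odd number of times can be enlarged, adding
every new edge to exactly two of them, to three paths.
-/

namespace Pool.Agent.U913.OC

open SimpleGraph Finset
open scoped Classical

variable {V : Type} [Fintype V]

/-- The vertices of odd degree in both graphs. -/
noncomputable def J (A B : SimpleGraph V) : Finset V :=
  univ.filter (fun v => Odd (dg A v) ∧ Odd (dg B v))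

lemma mem_J {A B : SimpleGraph V} {v : V} : v ∈ J A B ↔ Odd (dg A v) ∧ Odd (dg B v) := by
  simp [J]

lemma J_comm (A B : SimpleGraph V) : J A B = J B A := by
  ext v; rw [mem_J, mem_J, and_comm]

/-- Three linear forests with sum `G` modulo two, each vertex having odd degree in none or in
exactly two of them. -/
structure Tri (G A B C : SimpleGraph V) : Prop where
  aA : A.IsAcyclic
  aB : B.IsAcyclic
  aC : C.IsAcyclic
  dA : ∀ v, dg A v ≤ 2
  dB : ∀ v, dg B v ≤ 2
  dC : ∀ v, dg C v ≤ 2
  ev : ∀ v, Even (dg A v + dg B v + dg C v)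
  xor : ∀ v w, G.Adj v w ↔ (A.Adj v w ↔ (B.Adj v w ↔ C.Adj v w))

lemma Tri.swap {G A B C : SimpleGraph V} (h : Tri G A B C) : Tri G B A C :=
  ⟨h.aB, h.aA, h.aC, h.dB, h.dA, h.dC, fun v => by rw [add_comm (dg B v)]; exact h.ev v,
    fun v w => by rw [h.xor]; tauto⟩

lemma Tri.rot {G A B C : SimpleGraph V} (h : Tri G A B C) : Tri G A C B :=
  ⟨h.aA, h.aC, h.aB, h.dA, h.dC, h.dB, fun v => by rw [add_right_comm]; exact h.ev v,
    fun v w => by rw [h.xor]; tauto⟩

lemma handshake (A : SimpleGraph V) : Even (univ.filter (fun v => Odd (dg A v))).card := by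
  have := A.even_card_odd_degree_vertices
  convert this using 3
  rw [dg_eq_degree]

/-- The parities of the three classes of ends agree. -/
lemma Tri.card_add {G A B C : SimpleGraph V} (h : Tri G A B C) :
    Even ((J A B).card + (J A C).card) := by
  rw [← Finset.card_union_of_disjoint]
  · convert handshake A using 2
    ext v
    rw [mem_union, mem_J, mem_J, mem_filter]
    have := h.ev v
    constructor
    · rintro (h1 | h1)
      · exact ⟨mem_univ _, h1.1⟩
      · exact ⟨mem_univ _, h1.1⟩
    · rintro ⟨-, h1⟩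
      rcases Nat.even_or_odd (dg B v) with h2 | h2
      · right
        refine ⟨h1, ?_⟩
        rcases Nat.even_or_odd (dg C v) with h3 | h3
        · exfalso
          rw [Nat.even_iff] at this h2 h3
          rw [Nat.odd_iff] at h1
          omega
        · exact h3
      · exact Or.inl ⟨h1, h2⟩
  · rw [Finset.disjoint_left]
    intro v h1 h2
    rw [mem_J] at h1 h2
    have := h.ev v
    obtain ⟨h3, h4⟩ := h1
    obtain ⟨-, h5⟩ := h2
    rw [Nat.even_iff] at this
    rw [Nat.odd_iff] at h3 h4 h5
    omega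

lemma Tri.odd_AC {G A B C : SimpleGraph V} (h : Tri G A B C) (ho : Odd (J A B).card) :
    Odd (J A C).card := by
  have := h.card_add
  rw [Nat.even_iff] at this
  rw [Nat.odd_iff] at ho ⊢
  omega

/-- One linking step. -/
lemma Tri.step {G A B C : SimpleGraph V} (h : Tri G A B C) (h3 : 3 ≤ (J A B).card) :
    ∃ A' B', Tri G A' B' C ∧ (J A' B').card + 2 = (J A B).card ∧ J A' C = J A C ∧
      J B' C = J B C := by
  have hone : ∀ {D : SimpleGraph V} (_ : ∀ v, dg D v ≤ 2) {v : V}, Odd (dg D v) → dg D v = 1 := by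
    intro D hD v hv
    have := hD v
    rw [Nat.odd_iff] at hv
    omega
  obtain ⟨x, y, hxy, hx, hy, hA, hB⟩ : ∃ x y, x ≠ y ∧ x ∈ J A B ∧ y ∈ J A B ∧
      ¬ A.Reachable x y ∧ ¬ B.Reachable x y := by
    obtain ⟨a, b, c, ha, hb, hc, hab, hac, hbc⟩ := Finset.two_lt_card_iff.1 h3
    by_contra hcon
    push Not at hcon
    have e1 := hcon a b hab ha hb
    have e2 := hcon a c hac ha hc
    have e3 := hcon b c hbc hb hc
    rw [mem_J] at ha hb hc
    have hA3 := fun g1 g2 => no_three h.dA hab hac hbc (hone h.dA ha.1).le (hone h.dA hb.1).le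
      (hone h.dA hc.1).le g1 g2
    have hB3 := fun g1 g2 => no_three h.dB hab hac hbc (hone h.dB ha.2).le (hone h.dB hb.2).le
      (hone h.dB hc.2).le g1 g2
    by_cases r1 : A.Reachable a b
    · by_cases r2 : A.Reachable a c
      · exact hA3 r1 r2
      · by_cases r3 : A.Reachable b c
        · exact hA3 r1 (r1.trans r3)
        · exact hB3 ((e2 r2).trans (e3 r3).symm) (e2 r2)
    · by_cases r2 : A.Reachable a c
      · by_cases r3 : A.Reachable b c
        · exact hA3 (r2.trans r3.symm) r2
        · exact hB3 (e1 r1) ((e1 r1).trans (e3 r3))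
      · exact hB3 (e1 r1) (e2 r2)
  have hAn : ¬ A.Adj x y := fun g => hA g.reachable
  have hBn : ¬ B.Adj x y := fun g => hB g.reachable
  rw [mem_J] at hx hy
  have hCx : ¬ Odd (dg C x) := by
    have := h.ev x
    rw [Nat.even_iff] at this
    have h1 := hx.1
    have h2 := hx.2
    rw [Nat.odd_iff] at h1 h2 ⊢
    omega
  have hCy : ¬ Odd (dg C y) := by
    have := h.ev y
    rw [Nat.even_iff] at this
    have h1 := hy.1
    have h2 := hy.2
    rw [Nat.odd_iff] at h1 h2 ⊢
    omega
  have hdA : ∀ v, dg (A ⊔ edge x y) v = dg A v + if v = x ∨ v = y then 1 else 0 :=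
    dg_sup_edge hxy hAn
  have hdB : ∀ v, dg (B ⊔ edge x y) v = dg B v + if v = x ∨ v = y then 1 else 0 :=
    dg_sup_edge hxy hBn
  refine ⟨A ⊔ edge x y, B ⊔ edge x y, ⟨h.aA.sup_edge_of_not_reachable hA,
    h.aB.sup_edge_of_not_reachable hB, h.aC, ?_, ?_, h.dC, ?_, ?_⟩, ?_, ?_, ?_⟩
  · intro v
    rw [hdA]
    split_ifs with hv
    · have : dg A v = 1 := by
        rcases hv with rfl | rfl
        · exact hone h.dA hx.1
        · exact hone h.dA hy.1
      omega
    · exact h.dA v
  · intro v
    rw [hdB]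
    split_ifs with hv
    · have : dg B v = 1 := by
        rcases hv with rfl | rfl
        · exact hone h.dB hx.2
        · exact hone h.dB hy.2
      omega
    · exact h.dB v
  · intro v
    rw [hdA, hdB]
    have := h.ev v
    rw [Nat.even_iff] at this ⊢
    omega
  · intro v w
    rw [h.xor, sup_adj, sup_adj]
    by_cases he : (edge x y).Adj v w
    · have h1 : ¬ A.Adj v w := by
        rw [edge_adj] at he
        rcases he.1 with ⟨rfl, rfl⟩ | ⟨rfl, rfl⟩
        · exact hAn
        · exact fun g => hAn g.symm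
      have h2 : ¬ B.Adj v w := by
        rw [edge_adj] at he
        rcases he.1 with ⟨rfl, rfl⟩ | ⟨rfl, rfl⟩
        · exact hBn
        · exact fun g => hBn g.symm
      tauto
    · tauto
  · have h1 : J (A ⊔ edge x y) (B ⊔ edge x y) = ((J A B).erase x).erase y := by
      ext v
      rw [mem_J, hdA, hdB, Finset.mem_erase, Finset.mem_erase, mem_J]
      by_cases hv : v = x ∨ v = y
      · have h2 : ¬ Odd (dg A v + 1) := by
          rcases hv with rfl | rfl
          · rw [hone h.dA hx.1]; decide
          · rw [hone h.dA hy.1]; decide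
        rw [if_pos hv]
        tauto
      · rw [if_neg hv]
        simp only [add_zero]
        tauto
    have hxJ : x ∈ J A B := mem_J.2 hx
    have hyJ : y ∈ (J A B).erase x := Finset.mem_erase.2 ⟨hxy.symm, mem_J.2 hy⟩
    rw [h1, Finset.card_erase_of_mem hyJ, Finset.card_erase_of_mem hxJ]
    omega
  · ext v
    rw [mem_J, mem_J, hdA]
    by_cases hv : v = x ∨ v = y
    · rcases hv with rfl | rfl
      · exact ⟨fun g => absurd g.2 hCx, fun g => absurd g.2 hCx⟩
      · exact ⟨fun g => absurd g.2 hCy, fun g => absurd g.2 hCy⟩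
    · rw [if_neg hv, add_zero]
  · ext v
    rw [mem_J, mem_J, hdB]
    by_cases hv : v = x ∨ v = y
    · rcases hv with rfl | rfl
      · exact ⟨fun g => absurd g.2 hCx, fun g => absurd g.2 hCx⟩
      · exact ⟨fun g => absurd g.2 hCy, fun g => absurd g.2 hCy⟩
    · rw [if_neg hv, add_zero]

/-- The linking lemma. -/
theorem link {G : SimpleGraph V} : ∀ (n : ℕ) (A B C : SimpleGraph V), Tri G A B C →
    Odd (J A B).card → (J A B).card + (J A C).card + (J B C).card = n →
    ∃ A' B' C', Tri G A' B' C' ∧ (J A' B').card = 1 ∧ (J A' C').card = 1 ∧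
      (J B' C').card = 1 := by
  intro n
  induction n using Nat.strong_induction_on with
  | _ n ih =>
    intro A B C h ho hn
    have hoAC : Odd (J A C).card := h.odd_AC ho
    have hoBC : Odd (J B C).card := h.swap.odd_AC (by rw [J_comm]; exact ho)
    by_cases h1 : 3 ≤ (J A B).card
    · obtain ⟨A', B', h', e1, e2, e3⟩ := h.step h1
      refine ih ((J A' B').card + (J A' C).card + (J B' C).card) ?_ A' B' C h' ?_ rfl
      · rw [e2, e3]; omega
      · rw [Nat.odd_iff] at ho ⊢; omega
    · by_cases h2 : 3 ≤ (J A C).card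
      · obtain ⟨A', C', h', e1, e2, e3⟩ := h.rot.step h2
        refine ih ((J A' B).card + (J A' C').card + (J B C').card) ?_ A' B C' h'.rot ?_ rfl
        · rw [e2, J_comm B C', e3, J_comm C B]; omega
        · rw [e2]; exact ho
      · by_cases h3 : 3 ≤ (J B C).card
        · obtain ⟨B', C', h', e1, e2, e3⟩ := h.swap.rot.step h3
          have h'' : Tri G A B' C' := h'.rot.swap
          refine ih ((J A B').card + (J A C').card + (J B' C').card) ?_ A B' C' h'' ?_ rfl
          · rw [J_comm A B', e2, J_comm A C', e3, J_comm B A, J_comm C A]; omega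
          · rw [J_comm A B', e2, J_comm B A]; exact ho
        · refine ⟨A, B, C, h, ?_, ?_, ?_⟩
          · obtain ⟨k, hk⟩ := ho; omega
          · obtain ⟨k, hk⟩ := hoAC; omega
          · obtain ⟨k, hk⟩ := hoBC; omega

/-- The first of three forests with one common end for each pair is a path. -/
lemma Tri.path {G A B C : SimpleGraph V} (h : Tri G A B C) (h1 : (J A B).card = 1)
    (h2 : (J A C).card = 1) :
    ∃ (x y : V) (p : (⊤ : SimpleGraph V).Walk x y), p.IsPath ∧
      ∀ a b, s(a, b) ∈ p.edges ↔ A.Adj a b := by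
  obtain ⟨x, hx⟩ := Finset.card_eq_one.1 h1
  obtain ⟨y, hy⟩ := Finset.card_eq_one.1 h2
  have hx' : x ∈ J A B := by rw [hx]; exact mem_singleton_self _
  have hy' : y ∈ J A C := by rw [hy]; exact mem_singleton_self _
  rw [mem_J] at hx' hy'
  have hxy : x ≠ y := by
    rintro rfl
    have := h.ev x
    obtain ⟨g1, g2⟩ := hx'
    obtain ⟨-, g3⟩ := hy'
    rw [Nat.even_iff] at this
    rw [Nat.odd_iff] at g1 g2 g3
    omega
  have hoth : ∀ z, Odd (dg A z) → z = x ∨ z = y := by
    intro z hz
    rcases Nat.even_or_odd (dg B z) with g | g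
    · right
      have g3 : Odd (dg C z) := by
        have := h.ev z
        rw [Nat.even_iff] at this g
        rw [Nat.odd_iff] at hz ⊢
        omega
      have : z ∈ J A C := mem_J.2 ⟨hz, g3⟩
      rw [hy] at this
      exact mem_singleton.1 this
    · left
      have : z ∈ J A B := mem_J.2 ⟨hz, g⟩
      rw [hx] at this
      exact mem_singleton.1 this
  obtain ⟨p, hp, hpe⟩ := extract h.aA h.dA hxy hx'.1 hy'.1 hoth
  refine ⟨x, y, p.mapLe le_top, hp.mapLe _, fun a b => ?_⟩
  rw [Walk.edges_mapLe_eq_edges]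
  exact hpe a b

/-- Three forests as in the linking lemma give a path odd-cover with three paths. -/
theorem Tri.cover {G A B C : SimpleGraph V} (h : Tri G A B C) (ho : Odd (J A B).card) :
    ∃ (u w : Fin 3 → V) (P : ∀ i : Fin 3, (⊤ : SimpleGraph V).Walk (u i) (w i)),
      (∀ i, (P i).IsPath) ∧
      ∀ e : Sym2 V, Odd (univ.filter (fun i : Fin 3 => e ∈ (P i).edges)).card ↔ e ∈ G.edgeSet := by
  obtain ⟨A', B', C', h', e1, e2, e3⟩ := link _ A B C h ho rfl
  obtain ⟨x1, y1, p1, hp1, he1⟩ := h'.path e1 e2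
  obtain ⟨x2, y2, p2, hp2, he2⟩ := h'.swap.path (by rw [J_comm]; exact e1) e3
  obtain ⟨x3, y3, p3, hp3, he3⟩ := h'.rot.swap.path (by rw [J_comm]; exact e2)
    (by rw [J_comm]; exact e3)
  let Q : Fin 3 → Σ a b : V, (⊤ : SimpleGraph V).Walk a b :=
    ![⟨x1, y1, p1⟩, ⟨x2, y2, p2⟩, ⟨x3, y3, p3⟩]
  refine ⟨fun i => (Q i).1, fun i => (Q i).2.1, fun i => (Q i).2.2, ?_, ?_⟩
  · intro i
    fin_cases i
    · exact hp1
    · exact hp2
    · exact hp3
  · intro e
    induction e using Sym2.ind with
    | _ a b =>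
      rw [mem_edgeSet, h'.xor, Finset.card_filter, Fin.sum_univ_three]
      have k0 : s(a, b) ∈ ((Q 0).2.2).edges ↔ A'.Adj a b := he1 a b
      have k1 : s(a, b) ∈ ((Q 1).2.2).edges ↔ B'.Adj a b := he2 a b
      have k2 : s(a, b) ∈ ((Q 2).2.2).edges ↔ C'.Adj a b := he3 a b
      rw [if_congr k0 rfl rfl, if_congr k1 rfl rfl, if_congr k2 rfl rfl]
      by_cases hA : A'.Adj a b <;> by_cases hB : B'.Adj a b <;> by_cases hC : C'.Adj a b <;>
        (simp [hA, hB, hC]; try decide)

end Pool.Agent.U913.OC
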