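import Pool.Agent.U913.OC.Fact
import Pool.Agent.U913.OC.Choice
import Pool.Agent.U913.OC.Link

set_option autoImplicit false

/-!
# Path odd-covers of even graphs of maximum degree four: assembly
-/

namespace Pool.Agent.U913.OC

open SimpleGraph Finset
open scoped Classical

variable {V : Type} [Fintype V]

/-- An even graph with maximum degree four is the sum modulo two of three linear forests whose
ends coincide in pairs an odd number of times. -/
theorem exists_tri (G : SimpleGraph V) (he : ∀ v, Even (dg G v)) (h4 : ∀ v, dg G v ≤ 4)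
    (hex : ∃ v, dg G v = 4) : ∃ A B C, Tri G A B C ∧ Odd (J A B).card := by
  obtain ⟨F₁, F₂, hG, hdis, hT1', hT2'⟩ := two_factors G he h4
  have hT1 : Two F₁ := hT1'
  have hT2 : Two F₂ := hT2'
  have hGs : G = F₁ ⊔ F₂ := by
    ext a b
    rw [sup_adj]
    exact hG a b
  have hGd : ∀ v, dg G v = dg F₁ v + dg F₂ v := by
    intro v
    rw [hGs, dg_sup (fun w hw => hdis v w hw)]
  obtain ⟨w₀, hw₀⟩ := hex
  have hd0 := hGd w₀
  obtain ⟨a₀, ha₀⟩ : ∃ a, F₁.Adj w₀ a := exists_of_dg_pos (by
    have := hT2.le w₀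
    omega)
  obtain ⟨b₀, hb₀⟩ : ∃ b, F₂.Adj w₀ b := exists_of_dg_pos (by
    have := hT1.le w₀
    omega)
  obtain ⟨w, w', u, v, hww', huv, hr, hu, hu', hv, hv', hbad⟩ :=
    choice hT1 hT2 hdis ha₀ hb₀
  obtain ⟨M, hMF, hM1, hMw, hMu, hMv, hMm⟩ :=
    exists_matching hT2 hww' huv.ne (hdis u v huv) hu hu' hv hv' hbad
  obtain ⟨S, hSF, hS1, hac, hSC, hmeet⟩ :=
    extend_matching hT1 hM1 (univ.erase (F₁.connectedComponentMk w))
  have hS0 : ∀ a, F₁.Reachable w a → dg S a = 0 := by
    intro a ha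
    by_contra h
    obtain ⟨b, hb⟩ := exists_of_dg_pos (Nat.pos_of_ne_zero h)
    have h2 := hSC a b hb
    rw [Finset.mem_erase] at h2
    exact h2.1 (ConnectedComponent.eq.2 ha.symm)
  have hMw1 : dg M w = 1 := by
    have h1 := dg_pos hMw
    have h2 := hM1 w
    omega
  have hiso : ∀ x y, F₁.Reachable w y → dg M y = 0 → x ≠ y → ¬ (M ⊔ S).Reachable x y := by
    intro x y hy hMy hxy hreach
    obtain ⟨z, hz⟩ := adj_of_reachable hreach hxy
    have h1 := dg_pos hz
    have h2 := dg_sup_le M S y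
    have h3 := hS0 y hy
    omega
  let t : ℕ := ∑ a, dg M a * dg S a
  obtain ⟨x, y, hxy, hwx, hnr, hodd⟩ : ∃ x y, F₁.Adj x y ∧ F₁.Reachable w x ∧
      ¬ (M ⊔ S).Reachable x y ∧ Odd (t + (dg M x + dg M y)) := by
    rcases Nat.even_or_odd t with ht | ht
    · obtain ⟨x, y, hxy, hwx, hx, hy⟩ : ∃ x y, F₁.Adj x y ∧ F₁.Reachable w x ∧ dg M x = 1 ∧
          dg M y = 0 := by
        by_contra hcon
        push Not at hcon
        have : F₁.Reachable w u ∧ dg M u = 1 := by
          refine closed_reachable (H := F₁) (s := fun z => F₁.Reachable w z ∧ dg M z = 1) ?_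
            ⟨Reachable.refl w, hMw1⟩ hr
          rintro a b ⟨ha, ha1⟩ hab
          refine ⟨ha.trans hab.reachable, ?_⟩
          have h1 := hcon a b hab ha ha1
          have h2 := hM1 b
          omega
        omega
      refine ⟨x, y, hxy, hwx, hiso x y (hwx.trans hxy.reachable) hy hxy.ne, ?_⟩
      rw [hx, hy]
      rw [Nat.even_iff] at ht
      rw [Nat.odd_iff]
      omega
    · refine ⟨u, v, huv, hr, hiso u v (hr.trans huv.reachable) hMv huv.ne, ?_⟩
      rw [hMu, hMv]
      exact ht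
  have hwy : F₁.Reachable w y := hwx.trans hxy.reachable
  have hnS : ¬ S.Adj x y := dg_zero (hS0 x hwx) y
  have hS1d : ∀ a, dg (S ⊔ edge x y) a = dg S a + if a = x ∨ a = y then 1 else 0 :=
    dg_sup_edge hxy.ne hnS
  have hS1le : S ⊔ edge x y ≤ F₁ := by
    intro a b hab
    rw [sup_adj, edge_adj] at hab
    rcases hab with h | ⟨⟨rfl, rfl⟩ | ⟨rfl, rfl⟩, _⟩
    · exact hSF h
    · exact hxy
    · exact hxy.symm
  have hS11 : ∀ a, dg (S ⊔ edge x y) a ≤ 1 := by
    intro a
    rw [hS1d]
    split_ifs with h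
    · have : dg S a = 0 := by
        rcases h with rfl | rfl
        · exact hS0 a hwx
        · exact hS0 a hwy
      omega
    · exact hS1 a
  have hA := dg_sdiff hS1le
  have hB := dg_sdiff hMF
  have hMS : ∀ a, dg (M ⊔ (S ⊔ edge x y)) a = dg M a + dg (S ⊔ edge x y) a := by
    intro a
    exact dg_sup (fun b h1 h2 => hdis a b (hS1le h2) (hMF h1))
  refine ⟨F₁ \ (S ⊔ edge x y), F₂ \ M, M ⊔ (S ⊔ edge x y), ⟨?_, ?_, ?_, ?_, ?_, ?_, ?_, ?_⟩, ?_⟩
  · refine acyclic_sdiff hT1.le hS1le ?_
    intro a b hab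
    by_cases hc : F₁.connectedComponentMk a = F₁.connectedComponentMk w
    · refine ⟨x, y, ?_, (ConnectedComponent.eq.1 hc).trans hwx⟩
      rw [sup_adj, edge_adj]
      exact Or.inr ⟨Or.inl ⟨rfl, rfl⟩, hxy.ne⟩
    · obtain ⟨s, r, hsr, hre⟩ := hmeet a b hab (Finset.mem_erase.2 ⟨hc, mem_univ _⟩)
      exact ⟨s, r, Or.inl hsr, hre⟩
  · exact acyclic_sdiff hT2.le hMF hMm
  · rw [← sup_assoc]
    exact IsAcyclic.sup_edge_of_not_reachable hnr hac
  · intro a
    have h1 := hA a
    have h2 := hT1.le a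
    omega
  · intro a
    have h1 := hB a
    have h2 := hT2.le a
    omega
  · intro a
    rw [hMS]
    have h1 := hM1 a
    have h2 := hS11 a
    omega
  · intro a
    have h1 := hA a
    have h2 := hB a
    have h3 := hMS a
    have h4 := hGd a
    have h5 := he a
    rw [Nat.even_iff] at h5 ⊢
    omega
  · intro a b
    rw [hG a b]
    have h1 : (S ⊔ edge x y).Adj a b → F₁.Adj a b := fun h => hS1le h
    have h2 : M.Adj a b → F₂.Adj a b := fun h => hMF h
    have h3 := hdis a b
    rw [sdiff_adj, sdiff_adj, sup_adj M]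
    tauto
  · have hcard : (J (F₁ \ (S ⊔ edge x y)) (F₂ \ M)).card = ∑ a, dg M a * dg (S ⊔ edge x y) a := by
      unfold J
      rw [Finset.card_filter]
      refine Finset.sum_congr rfl fun a _ => ?_
      have h1 := hA a
      have h2 := hB a
      have h3 := hM1 a
      have h4 := hS11 a
      have h5 := hT1 a
      have h6 := hT2 a
      have hOA : Odd (dg (F₁ \ (S ⊔ edge x y)) a) ↔ dg (S ⊔ edge x y) a = 1 := by
        rw [Nat.odd_iff]; omega
      have hOB : Odd (dg (F₂ \ M) a) ↔ dg M a = 1 := by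
        rw [Nat.odd_iff]; omega
      rw [if_congr (and_congr hOA hOB) rfl rfl]
      have c1 : dg (S ⊔ edge x y) a = 0 ∨ dg (S ⊔ edge x y) a = 1 := by omega
      have c2 : dg M a = 0 ∨ dg M a = 1 := by omega
      rcases c1 with c1 | c1 <;> rcases c2 with c2 | c2 <;> rw [c1, c2] <;> simp
    have hsum : ∑ a, dg M a * dg (S ⊔ edge x y) a = t + (dg M x + dg M y) := by
      have h1 : ∀ a, dg M a * dg (S ⊔ edge x y) a =
          dg M a * dg S a + ((if a = x then dg M a else 0) + (if a = y then dg M a else 0)) := by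
        intro a
        rw [hS1d]
        by_cases hax : a = x
        · have hay : a ≠ y := fun h => hxy.ne (hax.symm.trans h)
          rw [if_pos (Or.inl hax), if_pos hax, if_neg hay]
          ring
        · by_cases hay : a = y
          · rw [if_pos (Or.inr hay), if_neg hax, if_pos hay]
            ring
          · rw [if_neg (by tauto), if_neg hax, if_neg hay]
            ring
      rw [Finset.sum_congr rfl (fun a _ => h1 a), Finset.sum_add_distrib,
        Finset.sum_add_distrib, Finset.sum_ite_eq' univ x, Finset.sum_ite_eq' univ y,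
        if_pos (mem_univ _), if_pos (mem_univ _)]
    rw [hcard, hsum]
    exact hodd

end Pool.Agent.U913.OC
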